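import Mathlib
import Pool.Agent.Helper56.SKF.Defs2

/-!
# The generic point (SKF-Q)
-/

namespace Pool.Agent.Helper56.SKF

open Module Pool.Agent.Helper56.SKW Pool.Agent.Helper56.SKW.PBW Pool.Agent.Helper56.SKU
  Pool.Agent.Helper56.SKR

universe u v w

/-- Evaluation of a homogeneous polynomial at a multiple. -/
theorem h90_eval₂_smul {R S σ : Type*} [CommSemiring R] [CommSemiring S] (φ : R →+* S)
    {f : MvPolynomial σ R} {j : ℕ} (hf : f.IsHomogeneous j) (c : S) (ζ : σ → S) :
    MvPolynomial.eval₂ φ (fun i => c * ζ i) f = c ^ j * MvPolynomial.eval₂ φ ζ f := by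
  rw [MvPolynomial.eval₂_eq, MvPolynomial.eval₂_eq, Finset.mul_sum]
  refine Finset.sum_congr rfl fun d hd => ?_
  have hd' : d.degree = j := by
    have h2 := hf (MvPolynomial.mem_support_iff.1 hd)
    exact (DFunLike.congr_fun (Finsupp.degree_eq_weight_one (R := ℕ) (σ := σ)) d).trans h2
  simp only [mul_pow, Finset.prod_mul_distrib]
  rw [Finset.prod_pow_eq_pow_sum]
  have h1 : ∑ i ∈ d.support, d i = j := by rw [← hd']; rfl
  rw [h1]
  ring

/-- Points near infinity in a good direction avoid the zeros of a polynomial. -/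
theorem near_ne {k : Type u} [Field k] {m : Type} [Fintype m] {F : Type u} [Field F] [Algebra k F]
    (O : ValuationSubring F) (η : O) (hη : IsLocalRing.residue O η = 0) (hη0 : (η : F) ≠ 0)
    (hk : ∀ a : k, algebraMap k F a ∈ O) (f : MvPolynomial m k) (p : ℕ) (hp : 0 < p) (a : m → k)
    (ha : MvPolynomial.eval (fun i => a i ^ p)
      (MvPolynomial.homogeneousComponent f.totalDegree f) ≠ 0) (ζ : m → F)
    (hζ : ∀ i, ∃ δ : O, IsLocalRing.residue O δ = 0 ∧
      (η : F) ^ (2 * p) * ζ i = algebraMap k F (a i) ^ p + δ) :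
    MvPolynomial.aeval ζ f ≠ 0 := by
  classical
  intro h0
  choose δ hδ hζδ using hζ
  let κ : k →+* O :=
    { toFun := fun a => ⟨algebraMap k F a, hk a⟩
      map_one' := Subtype.ext (map_one _)
      map_mul' := fun a b => Subtype.ext (map_mul _ a b)
      map_zero' := Subtype.ext (map_zero _)
      map_add' := fun a b => Subtype.ext (map_add _ a b) }
  have hκ : ∀ a, ((κ a : O) : F) = algebraMap k F a := fun a => rfl
  let ξ : m → O := fun i => κ (a i) ^ p + δ i
  have hξ : ∀ i, ((ξ i : O) : F) = (η : F) ^ (2 * p) * ζ i := by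
    intro i
    rw [hζδ i]
    rfl
  set D := f.totalDegree with hD
  -- the element of `O`
  let s : O := ∑ j ∈ Finset.range (D + 1), η ^ (2 * p * (D - j)) *
    MvPolynomial.eval₂ κ ξ (MvPolynomial.homogeneousComponent j f)
  have hs : ((s : O) : F) = (η : F) ^ (2 * p * D) * MvPolynomial.aeval ζ f := by
    have h1 : ∀ q : MvPolynomial m k, ((MvPolynomial.eval₂ κ ξ q : O) : F) =
        MvPolynomial.eval₂ (algebraMap k F) (fun i => (η : F) ^ (2 * p) * ζ i) q := by
      intro q
      have h2 := MvPolynomial.eval₂_comp_left (O.subtype : O →+* F) κ ξ q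
      have h3 : (O.subtype : O →+* F).comp κ = algebraMap k F := RingHom.ext fun a => rfl
      have h4 : (O.subtype : O →+* F) ∘ ξ = fun i => (η : F) ^ (2 * p) * ζ i := by
        funext i
        exact hξ i
      rw [h3, h4] at h2
      exact h2
    have h5 : ((s : O) : F) = ∑ j ∈ Finset.range (D + 1), (η : F) ^ (2 * p * (D - j)) *
        ((MvPolynomial.eval₂ κ ξ (MvPolynomial.homogeneousComponent j f) : O) : F) := by
      have h6 : (O.subtype : O →+* F) s = ∑ j ∈ Finset.range (D + 1), (O.subtype : O →+* F)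
          (η ^ (2 * p * (D - j)) *
          MvPolynomial.eval₂ κ ξ (MvPolynomial.homogeneousComponent j f)) := map_sum _ _ _
      refine h6.trans (Finset.sum_congr rfl fun j _ => ?_)
      rw [map_mul, map_pow]
      rfl
    have h7 : MvPolynomial.aeval ζ f = ∑ j ∈ Finset.range (D + 1),
        MvPolynomial.eval₂ (algebraMap k F) ζ (MvPolynomial.homogeneousComponent j f) := by
      conv_lhs => rw [← MvPolynomial.sum_homogeneousComponent f, map_sum]
      rfl
    rw [h5, h7, Finset.mul_sum]
    refine Finset.sum_congr rfl fun j hj => ?_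
    have hj' : j ≤ D := Nat.lt_succ_iff.1 (Finset.mem_range.1 hj)
    rw [h1, h90_eval₂_smul _ (MvPolynomial.homogeneousComponent_isHomogeneous j f), ← mul_assoc,
      ← pow_mul, ← pow_add, ← Nat.mul_add, Nat.sub_add_cancel hj']
  have hs0 : s = 0 := by
    apply Subtype.ext
    rw [hs, h0, mul_zero]
    rfl
  have hres : IsLocalRing.residue O s = MvPolynomial.eval₂ ((IsLocalRing.residue O).comp κ)
      (fun i => (IsLocalRing.residue O).comp κ (a i) ^ p)
      (MvPolynomial.homogeneousComponent D f) := by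
    have h1 : IsLocalRing.residue O s = ∑ j ∈ Finset.range (D + 1), IsLocalRing.residue O
        (η ^ (2 * p * (D - j)) *
        MvPolynomial.eval₂ κ ξ (MvPolynomial.homogeneousComponent j f)) := map_sum _ _ _
    rw [h1, Finset.sum_range_succ, Finset.sum_eq_zero, zero_add, Nat.sub_self, mul_zero, pow_zero,
      one_mul, MvPolynomial.eval₂_comp_left]
    · congr 1
      funext i
      show IsLocalRing.residue O (κ (a i) ^ p + δ i) = _
      rw [map_add, hδ, add_zero, map_pow]
      rfl
    · intro j hj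
      rw [map_mul, map_pow, hη, zero_pow, zero_mul]
      have := Finset.mem_range.1 hj
      have h2 : 0 < D - j := by omega
      positivity
  rw [hs0, map_zero] at hres
  have h8 : MvPolynomial.eval₂ ((IsLocalRing.residue O).comp κ)
      (fun i => (IsLocalRing.residue O).comp κ (a i) ^ p)
      (MvPolynomial.homogeneousComponent D f) = ((IsLocalRing.residue O).comp κ)
        (MvPolynomial.eval (fun i => a i ^ p) (MvPolynomial.homogeneousComponent D f)) := by
    have h9 := MvPolynomial.eval₂_comp_left ((IsLocalRing.residue O).comp κ) (RingHom.id k)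
      (fun i => a i ^ p) (MvPolynomial.homogeneousComponent D f)
    rw [RingHom.comp_id] at h9
    have h10 : (⇑((IsLocalRing.residue O).comp κ) ∘ fun i => a i ^ p) =
        fun i => (IsLocalRing.residue O).comp κ (a i) ^ p := by
      funext i
      exact map_pow _ _ _
    rw [h10] at h9
    exact h9.symm
  rw [h8] at hres
  exact ha ((map_eq_zero _).1 hres.symm)

/-- A direction of maximal rank outside the zeros of a polynomial. -/
theorem exists_dir {k : Type u} {L₀ L₁ : Type*} [Field k] [AddCommGroup L₀] [Module k L₀]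
    [AddCommGroup L₁] [Module k L₁] [FiniteDimensional k L₀] [FiniteDimensional k L₁]
    [IsAlgClosed k] {m : Type} [Fintype m] (b₀ : Basis m k L₀) (g : LieSuper k L₀ L₁)
    (θ₁ : L₀ →ₗ[k] k) (p : ℕ) (hp : 0 < p) (f : MvPolynomial m k) (hf : f ≠ 0) :
    ∃ θ : L₀ →ₗ[k] k, bOdd g θ₁ ≤ bOdd g θ ∧
      MvPolynomial.eval (fun i => θ (b₀ i) ^ p) f ≠ 0 := by
  classical
  have hinf : Infinite k := IsAlgClosed.instInfinite
  obtain ⟨c, hc⟩ : ∃ c : m → k, MvPolynomial.eval c f ≠ 0 := by
    by_contra hcon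
    push Not at hcon
    exact hf (MvPolynomial.funext fun c => by rw [hcon c, map_zero])
  choose e he using fun i => IsAlgClosed.exists_pow_nat_eq (c i) hp
  let θ₂ : L₀ →ₗ[k] k := b₀.constr k e
  have hθ₂ : ∀ i, θ₂ (b₀ i) = e i := fun i => b₀.constr_basis k e i
  obtain ⟨S, hS, h1⟩ := exists_aux (form₁ g θ₁) (form₁ g (θ₂ - θ₁))
  let q : Polynomial k := MvPolynomial.aeval (fun i => (Polynomial.C (θ₁ (b₀ i)) + Polynomial.X *
    Polynomial.C ((θ₂ - θ₁) (b₀ i))) ^ p) f
  have hq : ∀ t : k, q.eval t = MvPolynomial.eval (fun i => (θ₁ + t • (θ₂ - θ₁)) (b₀ i) ^ p) f := by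
    intro t
    have h2 : q.eval t = (Polynomial.evalRingHom t).comp (MvPolynomial.aeval (fun i =>
      (Polynomial.C (θ₁ (b₀ i)) + Polynomial.X *
      Polynomial.C ((θ₂ - θ₁) (b₀ i))) ^ p) : MvPolynomial m k →ₐ[k] Polynomial k).toRingHom f :=
      rfl
    rw [h2]
    have h3 : (Polynomial.evalRingHom t).comp (MvPolynomial.aeval (fun i =>
      (Polynomial.C (θ₁ (b₀ i)) + Polynomial.X *
      Polynomial.C ((θ₂ - θ₁) (b₀ i))) ^ p) : MvPolynomial m k →ₐ[k] Polynomial k).toRingHom =
      MvPolynomial.eval (fun i => (θ₁ + t • (θ₂ - θ₁)) (b₀ i) ^ p) := by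
      apply MvPolynomial.ringHom_ext
      · intro r
        simp
      · intro i
        simp
    rw [h3]
  have hq0 : q ≠ 0 := by
    intro h
    have h2 := hq 1
    rw [h, Polynomial.eval_zero] at h2
    apply hc
    rw [h2]
    congr 2
    funext i
    rw [one_smul, add_sub_cancel, hθ₂, he]
  have hfin : (({0} : Set k) ∪ (S.image fun s => -s⁻¹) ∪ {t | q.IsRoot t}).Finite :=
    ((Set.finite_singleton 0).union (hS.image _)).union (Polynomial.finite_setOfPred_isRoot hq0)
  obtain ⟨t, ht⟩ := hfin.infinite_compl.nonempty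
  rw [Set.mem_compl_iff, Set.mem_union, Set.mem_union, not_or, not_or] at ht
  obtain ⟨⟨ht0, ht1⟩, ht2⟩ := ht
  have ht0' : t ≠ 0 := fun h => ht0 h
  refine ⟨θ₁ + t • (θ₂ - θ₁), ?_, ?_⟩
  · have h2 := h1 t ht0' (by
      intro h3
      apply ht1
      refine ⟨_, h3, ?_⟩
      show -(-t⁻¹)⁻¹ = t
      rw [inv_neg, inv_inv, neg_neg])
    have h3 : form₁ g (θ₁ + t • (θ₂ - θ₁)) = form₁ g θ₁ + t • form₁ g (θ₂ - θ₁) := by
      ext x x'
      rfl
    unfold bOdd
    rw [h3]
    omega
  · rw [← hq t]
    exact ht2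

end Pool.Agent.Helper56.SKF
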