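import Mathlib
import Pool.Agent.Helper56.SKF.Defs2
import Pool.Agent.Helper45.SKF.Red
import Pool.Agent.Helper28.SKF.Cons
import Pool.Agent.Helper88.SKF.Near
import Pool.Agent.Helper71.SKF.CoRep

/-!
# The induction step (SKF-O)
-/

namespace Pool.Agent.Helper90.SKF

open Module Pool.Agent.Helper56.SKW Pool.Agent.Helper56.SKW.PBW Pool.Agent.Helper56.SKU
  Pool.Agent.Helper56.SKR Pool.Agent.Helper56.SKF Pool.Agent.Helper45.SKF
  Pool.Agent.Helper28.SKF Pool.Agent.Helper88.SKF Pool.Agent.Helper71.SKF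

universe u v w

/-- A basis adapted to a subspace. -/
theorem h90_basis {k L : Type*} [Field k] [AddCommGroup L] [Module k L] [FiniteDimensional k L]
    (E : Submodule k L) :
    ∃ b : Basis (Fin (finrank k E) ⊕ Fin (finrank k L - finrank k E)) k L,
      (∀ i, b (Sum.inl i) ∈ E) ∧ E ≤ Submodule.span k (Set.range fun i => b (Sum.inl i)) := by
  obtain ⟨E', hE⟩ := E.exists_isCompl
  have h1 := Submodule.finrank_add_eq_of_isCompl hE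
  have h2 : finrank k E' = finrank k L - finrank k E := by omega
  let b1 := finBasis k E
  let b2 := finBasisOfFinrankEq k E' h2
  let b := (b1.prod b2).map (Submodule.prodEquivOfIsCompl E E' hE)
  have hb : ∀ i, b (Sum.inl i) = (b1 i : L) := by
    intro i
    simp [b]
  refine ⟨b, fun i => by rw [hb]; exact (b1 i).2, ?_⟩
  intro x hx
  have h3 := b1.sum_repr ⟨x, hx⟩
  have h4 : x = ∑ i, b1.repr ⟨x, hx⟩ i • (b1 i : L) := by
    have h5 : ((∑ i, b1.repr ⟨x, hx⟩ i • b1 i : E) : L) = x := congrArg Subtype.val h3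
    rw [Submodule.coe_sum] at h5
    exact h5.symm
  rw [h4]
  exact Submodule.sum_mem _ fun i _ => Submodule.smul_mem _ _ (Submodule.subset_span ⟨i, hb i⟩)

/-- A representation of the reduced Lie superalgebra as a representation of the centraliser. -/
def h90_pull {k L₀ L₁ A : Type*} [Field k] [AddCommGroup L₀] [Module k L₀] [AddCommGroup L₁]
    [Module k L₁] [Ring A] [Algebra k A] (h2 : (2 : k) ≠ 0) {g : LieSuper k L₀ L₁} {ν : L₁}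
    (M : GRep (gR h2 g ν) A) : GRep (subL (c_sub h2 (g := g) (ν := ν))) A where
  σ := M.σ
  ρ₀ := M.ρ₀.comp (jE g ν).mkQ
  ρ₁ := M.ρ₁.comp (jO g ν).mkQ
  ss := M.ss
  s0 x := M.s0 _
  s1 y := M.s1 _
  m00 x x' := M.m00 ((jE g ν).mkQ x) ((jE g ν).mkQ x')
  m01 x y := M.m01 ((jE g ν).mkQ x) ((jO g ν).mkQ y)
  m11 y y' := M.m11 ((jO g ν).mkQ y) ((jO g ν).mkQ y')

theorem step_near {k : Type u} {L₀ L₁ : Type*} [Field k] [AddCommGroup L₀] [Module k L₀]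
    [AddCommGroup L₁] [Module k L₁] [IsAlgClosed k] [FiniteDimensional k L₀]
    [FiniteDimensional k L₁] (p : ℕ) [hp : Fact p.Prime] [CharP k p] (hp2 : 2 < p)
    (h2 : (2 : k) ≠ 0) (g : LieSuper k L₀ L₁) (θ : L₀ →ₗ[k] k)
    (hres : ∀ x, ∃ x', g.b00 x' = (g.b00 x) ^ p ∧ g.b01 x' = (g.b01 x) ^ p) (ν : L₁)
    (hν : ν ∈ LinearMap.ker (form₁ g θ)) (hνν : g.b11 ν ν = 0)
    (θ' : (cE g ν ⧸ jE g ν) →ₗ[k] k) (hθ' : ∀ x : cE g ν, θ' ((jE g ν).mkQ x) = θ x)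
    (hb : bOdd g θ = bOdd (gR h2 g ν) θ' + 2 * (finrank k L₁ - finrank k (cO g ν)))
    (hrec : HasNear p (gR h2 g ν) θ') : HasNear p g θ := by
  classical
  obtain ⟨F, iF, iFa, iFk, O, η, V, iV, iFV, ikV, iT, iFD, M₁, hη, hη0, hk, hirr, hnear, hdiv⟩ :=
    hrec
  have hp0 : 0 < p := hp.out.pos
  obtain ⟨b₀, hH₀, hs₀⟩ := h90_basis (cE g ν)
  obtain ⟨b₁, hH₁, hs₁⟩ := h90_basis (cO g ν)
  choose P hPa hPb using fun i => hres (b₀ i)
  have hPH : ∀ i, P (Sum.inl i) ∈ cE g ν := fun i =>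
    cE_res hp0 (hH₀ i) fun y => by rw [hPb]
  have hz : ∀ i, ∃ (ζ : F) (δ : O), IsLocalRing.residue O δ = 0 ∧
      M₁.ρ₀ ((jE g ν).mkQ ⟨b₀ (Sum.inl i), hH₀ i⟩) ^ p -
        M₁.ρ₀ ((jE g ν).mkQ ⟨P (Sum.inl i), hPH i⟩) = ζ • 1 ∧
      (η : F) ^ (2 * p) * ζ = algebraMap k F (θ (b₀ (Sum.inl i))) ^ p + δ := by
    intro i
    have h3 := gR_pow h2 (g := g) (ν := ν) (p := p) (x := ⟨b₀ (Sum.inl i), hH₀ i⟩)
      (x' := ⟨P (Sum.inl i), hPH i⟩) (hPa _) (hPb _)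
    obtain ⟨ζ, δ, hδ, h4, h5⟩ := hnear ((jE g ν).mkQ ⟨b₀ (Sum.inl i), hH₀ i⟩)
      ((jE g ν).mkQ ⟨P (Sum.inl i), hPH i⟩) (fun a => by rw [h3.1]) (fun y => by rw [h3.2])
    refine ⟨ζ, δ, hδ, h4, ?_⟩
    rw [h5, hθ']
  choose ζ₁ δ₁ hδ₁ hζ₁ hζδ₁ using hz
  have hη2 : (η : F) ^ (2 * p) ≠ 0 := pow_ne_zero _ hη0
  let ζ : Fin (finrank k (cE g ν)) ⊕ Fin (finrank k L₀ - finrank k (cE g ν)) → F :=
    Sum.elim ζ₁ fun i => ((η : F) ^ (2 * p))⁻¹ * algebraMap k F (θ (b₀ (Sum.inr i))) ^ p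
  have hζδ : ∀ i, ∃ δ : O, IsLocalRing.residue O δ = 0 ∧
      (η : F) ^ (2 * p) * ζ i = algebraMap k F (θ (b₀ i)) ^ p + δ := by
    rintro (i | i)
    · exact ⟨δ₁ i, hδ₁ i, hζδ₁ i⟩
    · refine ⟨0, map_zero _, ?_⟩
      show (η : F) ^ (2 * p) * (((η : F) ^ (2 * p))⁻¹ * algebraMap k F (θ (b₀ (Sum.inr i))) ^ p) = _
      rw [← mul_assoc, mul_inv_cancel₀ hη2, one_mul]
      simp
  obtain ⟨W, i1, i2, i3, i4, i5, N, hN, hdim⟩ := coind_rep g b₀ b₁ p hp2 P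
    (fun i x => by rw [hPa]) (fun i y => by rw [hPb]) (cE g ν) (cO g ν) (c_sub h2) hH₀ hH₁ hs₀ hs₁
    hPH ζ (h90_pull h2 M₁) (fun i => hζ₁ i)
  rw [Fintype.card_fin, Fintype.card_fin] at hdim
  set q := finrank k L₁ - finrank k (cO g ν) with hq
  have hD : ¬ 2 ^ ((bOdd g θ + 1) / 2 + 1) ∣ finrank F W := by
    intro hdvd
    apply hdiv
    have h3 : (bOdd g θ + 1) / 2 + 1 = ((bOdd (gR h2 g ν) θ' + 1) / 2 + 1) + q := by omega
    rw [hdim, h3, pow_add, mul_assoc, mul_comm (2 ^ q) (finrank F V), ← mul_assoc] at hdvd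
    have h4 := Nat.dvd_of_mul_dvd_mul_right (by positivity) hdvd
    refine Nat.Coprime.dvd_of_dvd_mul_left ?_ h4
    apply Nat.Coprime.pow
    rw [Nat.coprime_primes Nat.prime_two hp.out]
    omega
  obtain ⟨V', j1, j2, j3, j4, j5, M, hM, hMc, hMd⟩ := exists_constituent b₀ p P ζ _ N hN hD
  refine ⟨F, iF, iFa, iFk, O, η, V', j1, j2, j3, j4, j5, M, hη, hη0, hk, hM, ?_, hMd⟩
  exact near_of_basis b₀ b₁ hp2 P O η hη hη0 hk θ M hM ζ fun i => ⟨hMc i, hζδ i⟩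

end Pool.Agent.Helper90.SKF
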